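import Pool.Agent.Y373.Star

/-! A chevron-shaped octiamond tiling in which a tile has a neighbourhood with a hole. -/

set_option autoImplicit false

namespace Pool.Agent.Y373.Chev
open Pool.Agent.Y373.Star

/-! ### skew coordinates -/

noncomputable def cx (z : E) : ℝ := z 0 - z 1 / √3
noncomputable def cy (z : E) : ℝ := 2 * z 1 / √3
noncomputable def pt (x y : ℝ) : E := !₂[x + y / 2, √3 / 2 * y]

theorem s3pos : (0 : ℝ) < √3 := Real.sqrt_pos.mpr (by norm_num)

theorem s3sq : √3 * √3 = (3 : ℝ) := Real.mul_self_sqrt (by norm_num)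

@[simp] theorem cx_pt (x y : ℝ) : cx (pt x y) = x := by
  have := s3pos
  simp only [cx, pt]
  simp
  field_simp
  ring

@[simp] theorem cy_pt (x y : ℝ) : cy (pt x y) = y := by
  have := s3pos
  simp only [cy, pt]
  simp
  field_simp

theorem c0 (z : E) : z 0 = cx z + cy z / 2 := by
  simp only [cx, cy]; ring

theorem c1 (z : E) : z 1 = √3 / 2 * cy z := by
  have := s3pos
  simp only [cy]; field_simp

@[simp] theorem pt_c (z : E) : pt (cx z) (cy z) = z := by
  ext i
  fin_cases i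
  · simp only [pt]
    simp
    rw [c0 z]
  · simp only [pt]
    simp
    rw [c1 z]

@[simp] theorem cx_add (z w : E) : cx (z + w) = cx z + cx w := by
  simp only [cx]; simp; ring
@[simp] theorem cy_add (z w : E) : cy (z + w) = cy z + cy w := by
  simp only [cy]; simp; ring
@[simp] theorem cx_sub (z w : E) : cx (z - w) = cx z - cx w := by
  simp only [cx]; simp; ring
@[simp] theorem cy_sub (z w : E) : cy (z - w) = cy z - cy w := by
  simp only [cy]; simp; ring
@[simp] theorem cx_smul (t : ℝ) (z : E) : cx (t • z) = t * cx z := by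
  simp only [cx]; simp; ring
@[simp] theorem cy_smul (t : ℝ) (z : E) : cy (t • z) = t * cy z := by
  simp only [cy]; simp; ring

theorem cx_cont : Continuous cx := by
  unfold cx; fun_prop
theorem cy_cont : Continuous cy := by
  unfold cy; fun_prop

theorem pt_cont : Continuous fun p : ℝ × ℝ => pt p.1 p.2 := by
  unfold pt; fun_prop

theorem dist_eq (z w : E) : dist z w = √((cx z - cx w) ^ 2 + (cx z - cx w) * (cy z - cy w) +
    (cy z - cy w) ^ 2) := by
  rw [EuclideanSpace.dist_eq]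
  congr 1
  rw [Fin.sum_univ_two, Real.dist_eq, Real.dist_eq, sq_abs, sq_abs, c0 z, c0 w, c1 z, c1 w]
  have h : (√3 / 2 * cy z - √3 / 2 * cy w) ^ 2 = (√3 * √3) * ((cy z - cy w) / 2) ^ 2 := by ring
  rw [h, s3sq]
  ring

/-! ### the base tile -/

def InT (x y : ℝ) : Prop :=
  (2 ≤ y ∧ y ≤ 3 ∧ 0 ≤ x ∧ x + y ≤ 5) ∨ (0 ≤ x ∧ x ≤ 1 ∧ y ≤ 3 ∧ 1 ≤ x + y)

def R (o : Fin 3) (p q : ℝ) : Prop :=
  match o with
  | 0 => InT p q
  | 1 => InT p (5 - p - q)
  | 2 => InT (5 - p - q) q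

def Tl (o : Fin 3) (X Y : ℤ) : Set E := {z | R o (cx z - X) (cy z - Y)}

def C : Set E := {z | InT (cx z) (cy z)}

/-- the isometries -/
noncomputable def iso (o : Fin 3) (X Y : ℤ) : E ≃ᵢ E :=
  match o with
  | 0 => IsometryEquiv.mk' (fun z => pt (cx z + X) (cy z + Y))
      (fun z => pt (cx z - X) (cy z - Y)) (by intro z; simp)
      (by
        apply Isometry.of_dist_eq
        intro z w
        rw [dist_eq, dist_eq]
        simp)
  | 1 => IsometryEquiv.mk' (fun z => pt (cx z + X) (5 - cx z - cy z + Y))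
      (fun z => pt (cx z - X) (5 - (cx z - X) - (cy z - Y))) (by intro z; simp)
      (by
        apply Isometry.of_dist_eq
        intro z w
        rw [dist_eq, dist_eq]
        simp
        congr 1
        ring)
  | 2 => IsometryEquiv.mk' (fun z => pt (5 - cx z - cy z + X) (cy z + Y))
      (fun z => pt (5 - (cx z - X) - (cy z - Y)) (cy z - Y)) (by
        intro z
        simp only [cx_pt, cy_pt]
        rw [show (5 - (5 - (cx z - X) - (cy z - Y)) - (cy z - Y) + X : ℝ) = cx z by ring,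
          sub_add_cancel, pt_c])
      (by
        apply Isometry.of_dist_eq
        intro z w
        rw [dist_eq, dist_eq]
        simp
        congr 1
        ring)

theorem Tl_eq (o : Fin 3) (X Y : ℤ) : Tl o X Y = iso o X Y '' C := by
  have h : iso o X Y '' C = (iso o X Y).symm ⁻¹' C := (iso o X Y).toEquiv.image_eq_preimage_symm C
  rw [h]
  ext z
  fin_cases o
  · show InT (cx z - X) (cy z - Y) ↔ InT (cx (pt (cx z - X) (cy z - Y))) (cy (pt (cx z - X) (cy z - Y)))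
    simp
  · show InT (cx z - X) (5 - (cx z - X) - (cy z - Y)) ↔
      InT (cx (pt (cx z - X) (5 - (cx z - X) - (cy z - Y))))
        (cy (pt (cx z - X) (5 - (cx z - X) - (cy z - Y))))
    simp
  · show InT (5 - (cx z - X) - (cy z - Y)) (cy z - Y) ↔
      InT (cx (pt (5 - (cx z - X) - (cy z - Y)) (cy z - Y)))
        (cy (pt (5 - (cx z - X) - (cy z - Y)) (cy z - Y)))
    simp

/-! ### cells -/

def cells (o : Fin 3) : List (Bool × ℤ × ℤ) :=
  match o with
  | 0 => [(false,0,1),(false,0,2),(false,1,2),(false,2,2),(true,0,0),(true,0,1),(true,0,2),(true,1,2)]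
  | 1 => [(false,0,2),(false,0,3),(false,1,1),(false,2,0),(true,0,1),(true,0,2),(true,0,3),(true,1,0)]
  | 2 => [(false,0,2),(false,1,2),(false,2,2),(false,3,1),(true,0,2),(true,1,2),(true,2,1),(true,3,0)]

def ok (o : Fin 3) (r : ℤ) : Bool :=
  match o with
  | 0 => r % 32 == 3 || r % 32 == 15 || r % 32 == 19 || r % 32 == 25
  | 1 => r % 32 == 22 || r % 32 == 23
  | 2 => r % 32 == 6 || r % 32 == 29

theorem ok_congr (o : Fin 3) {r s : ℤ} (h : r % 32 = s % 32) : ok o r = ok o s := by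
  unfold ok; rw [h]

/-- the tiling -/
def TT : Set (Set E) := {S | ∃ (o : Fin 3) (X Y : ℤ), ok o (X - 9 * Y) = true ∧ S = Tl o X Y}

theorem cover_dec : ∀ r : Fin 32, ∀ t : Bool, ∃ o : Fin 3, ∃ c ∈ cells o,
    c.1 = t ∧ ok o ((r : ℕ) - (c.2.1 - 9 * c.2.2)) = true := by
  decide +kernel

theorem uniq_dec : ∀ r : Fin 32, ∀ o : Fin 3, ∀ c ∈ cells o,
    ok o ((r : ℕ) - (c.2.1 - 9 * c.2.2)) = true → ∀ o' : Fin 3, ∀ c' ∈ cells o',
    c'.1 = c.1 → ok o' ((r : ℕ) - (c'.2.1 - 9 * c'.2.2)) = true → o = o' ∧ c = c' := by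
  decide +kernel

def cellIn (t : Bool) (a b : ℤ) (p q : ℝ) : Prop :=
  match t with
  | false => a ≤ p ∧ b ≤ q ∧ p + q ≤ a + b + 1
  | true => p ≤ a + 1 ∧ q ≤ b + 1 ∧ a + b + 1 ≤ p + q

theorem cell_sub (o : Fin 3) (p q : ℝ) : ∀ c ∈ cells o, cellIn c.1 c.2.1 c.2.2 p q → R o p q := by
  intro c hc h
  fin_cases o
  · simp only [cells, List.mem_cons, List.not_mem_nil, or_false] at hc
    rcases hc with rfl | rfl | rfl | rfl | rfl | rfl | rfl | rfl <;>
    · simp only [cellIn] at h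
      obtain ⟨h1, h2, h3⟩ := h
      push_cast at h1 h2 h3
      show InT p q
      first
      | (left; refine ⟨?_, ?_, ?_, ?_⟩ <;> linarith)
      | (right; refine ⟨?_, ?_, ?_, ?_⟩ <;> linarith)
  · simp only [cells, List.mem_cons, List.not_mem_nil, or_false] at hc
    rcases hc with rfl | rfl | rfl | rfl | rfl | rfl | rfl | rfl <;>
    · simp only [cellIn] at h
      obtain ⟨h1, h2, h3⟩ := h
      push_cast at h1 h2 h3
      show InT p (5 - p - q)
      first
      | (left; refine ⟨?_, ?_, ?_, ?_⟩ <;> linarith)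
      | (right; refine ⟨?_, ?_, ?_, ?_⟩ <;> linarith)
  · simp only [cells, List.mem_cons, List.not_mem_nil, or_false] at hc
    rcases hc with rfl | rfl | rfl | rfl | rfl | rfl | rfl | rfl <;>
    · simp only [cellIn] at h
      obtain ⟨h1, h2, h3⟩ := h
      push_cast at h1 h2 h3
      show InT (5 - p - q) q
      first
      | (left; refine ⟨?_, ?_, ?_, ?_⟩ <;> linarith)
      | (right; refine ⟨?_, ?_, ?_, ?_⟩ <;> linarith)

theorem covers : ⋃₀ TT = Set.univ := by
  rw [Set.eq_univ_iff_forall]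
  intro z
  set x := cx z with hx
  set y := cy z with hy
  have hi := Int.floor_le x
  have hi' := Int.lt_floor_add_one x
  have hj := Int.floor_le y
  have hj' := Int.lt_floor_add_one y
  set i := ⌊x⌋
  set j := ⌊y⌋
  obtain ⟨t, ht⟩ : ∃ t : Bool, cellIn t i j x y := by
    by_cases h : x + y ≤ i + j + 1
    · exact ⟨false, hi, hj, h⟩
    · exact ⟨true, hi'.le, hj'.le, (not_le.mp h).le⟩
  have hr : ((i - 9 * j) % 32).toNat < 32 := by omega
  obtain ⟨o, c, hc, hct, hok⟩ := cover_dec ⟨((i - 9 * j) % 32).toNat, hr⟩ t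
  refine Set.mem_sUnion.mpr ⟨Tl o (i - c.2.1) (j - c.2.2), ⟨o, _, _, ?_, rfl⟩, ?_⟩
  · rw [← hok]
    apply ok_congr
    simp only
    omega
  · apply cell_sub o _ _ c hc
    rw [hct]
    cases t
    · obtain ⟨h1, h2, h3⟩ := ht
      refine ⟨?_, ?_, ?_⟩ <;> push_cast <;> linarith
    · obtain ⟨h1, h2, h3⟩ := ht
      refine ⟨?_, ?_, ?_⟩ <;> push_cast <;> linarith

/-- generic points -/
theorem generic {U : Set E} (hU : IsOpen U) (hne : U.Nonempty) : ∃ z ∈ U,
    (∀ n : ℤ, cx z ≠ n) ∧ (∀ n : ℤ, cy z ≠ n) ∧ (∀ n : ℤ, cx z + cy z ≠ n) := by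
  obtain ⟨z0, hz0⟩ := hne
  let g : ℝ → E := fun t => pt (cx z0 + t) (cy z0 + t)
  have hg : Continuous g := by
    have : Continuous fun t : ℝ => (cx z0 + t, cy z0 + t) := by fun_prop
    exact pt_cont.comp this
  have hV : IsOpen (g ⁻¹' U) := hU.preimage hg
  have h0 : (0 : ℝ) ∈ g ⁻¹' U := by
    show pt (cx z0 + 0) (cy z0 + 0) ∈ U
    rw [add_zero, add_zero, pt_c]; exact hz0
  let B : Set ℝ := (⋃ n : ℤ, {(n : ℝ) - cx z0}) ∪ (⋃ n : ℤ, {(n : ℝ) - cy z0}) ∪
    (⋃ n : ℤ, {((n : ℝ) - cx z0 - cy z0) / 2})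
  have hB : B.Countable := by
    refine ((Set.countable_iUnion fun n => ?_).union (Set.countable_iUnion fun n => ?_)).union
      (Set.countable_iUnion fun n => ?_) <;> exact Set.countable_singleton _
  have hd : Dense Bᶜ := hB.dense_compl ℝ
  obtain ⟨t, ht, htB⟩ := hd.inter_open_nonempty _ hV ⟨0, h0⟩
  refine ⟨g t, ht, ?_, ?_, ?_⟩
  · intro n hn
    apply htB
    left; left
    refine Set.mem_iUnion.mpr ⟨n, ?_⟩
    have : cx (g t) = cx z0 + t := cx_pt _ _
    rw [this] at hn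
    rw [Set.mem_singleton_iff]; linarith
  · intro n hn
    apply htB
    left; right
    refine Set.mem_iUnion.mpr ⟨n, ?_⟩
    have : cy (g t) = cy z0 + t := cy_pt _ _
    rw [this] at hn
    rw [Set.mem_singleton_iff]; linarith
  · intro n hn
    apply htB
    right
    refine Set.mem_iUnion.mpr ⟨n, ?_⟩
    have h1 : cx (g t) = cx z0 + t := cx_pt _ _
    have h2 : cy (g t) = cy z0 + t := cy_pt _ _
    rw [h1, h2] at hn
    rw [Set.mem_singleton_iff]; linarith

/-- open cell -/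
def cellOpen (t : Bool) (a b : ℤ) (p q : ℝ) : Prop :=
  match t with
  | false => a < p ∧ b < q ∧ p + q < a + b + 1
  | true => p < a + 1 ∧ q < b + 1 ∧ a + b + 1 < p + q

theorem cell_of_gen (z : E) (h1 : ∀ n : ℤ, cx z ≠ n) (h2 : ∀ n : ℤ, cy z ≠ n)
    (h3 : ∀ n : ℤ, cx z + cy z ≠ n) : ∃ (t : Bool) (i j : ℤ), cellOpen t i j (cx z) (cy z) := by
  have hi := Int.floor_le (cx z)
  have hi' := Int.lt_floor_add_one (cx z)
  have hj := Int.floor_le (cy z)
  have hj' := Int.lt_floor_add_one (cy z)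
  have hi2 := lt_of_le_of_ne hi (h1 _).symm
  have hj2 := lt_of_le_of_ne hj (h2 _).symm
  have hne := h3 (⌊cx z⌋ + ⌊cy z⌋ + 1)
  push_cast at hne
  rcases lt_or_gt_of_ne hne with h | h
  · exact ⟨false, _, _, hi2, hj2, h⟩
  · exact ⟨true, _, _, hi', hj', h⟩

theorem ilt {a b : ℤ} (h : (a : ℝ) < b) : a < b := by exact_mod_cast h

/-- an open cell meeting an oriented tile is one of its cells -/
theorem cell_mem (o : Fin 3) (t : Bool) (a b : ℤ) (p q : ℝ) (hc : cellOpen t a b p q)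
    (hR : R o p q) : (t, a, b) ∈ cells o := by
  have hb : ∃ l u m n : ℤ, (a : ℝ) < p ∧ p < a + 1 ∧ (b : ℝ) < q ∧ q < b + 1 ∧
      (l = 0 ∧ u = 4 ∧ m = 0 ∧ n = 5) := by
    cases t
    · obtain ⟨h1, h2, h3⟩ := hc
      exact ⟨0, 4, 0, 5, h1, by linarith, h2, by linarith, rfl, rfl, rfl, rfl⟩
    · obtain ⟨h1, h2, h3⟩ := hc
      exact ⟨0, 4, 0, 5, by linarith, h1, by linarith, h2, rfl, rfl, rfl, rfl⟩
  obtain ⟨_, _, _, _, ha, ha', hb, hb', _⟩ := hb
  have hbox : 0 ≤ p ∧ p ≤ 4 ∧ 0 ≤ q ∧ q ≤ 5 := by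
    fin_cases o
    · rcases hR with ⟨h1, h2, h3, h4⟩ | ⟨h1, h2, h3, h4⟩ <;>
        refine ⟨?_, ?_, ?_, ?_⟩ <;> linarith
    · rcases hR with ⟨h1, h2, h3, h4⟩ | ⟨h1, h2, h3, h4⟩ <;>
        refine ⟨?_, ?_, ?_, ?_⟩ <;> linarith
    · rcases hR with ⟨h1, h2, h3, h4⟩ | ⟨h1, h2, h3, h4⟩ <;>
        refine ⟨?_, ?_, ?_, ?_⟩ <;> linarith
  obtain ⟨q1, q2, q3, q4⟩ := hbox
  have a1 : -1 < a := ilt (by push_cast; linarith)
  have a2 : a < 4 := ilt (by push_cast; linarith)
  have b1 : -1 < b := ilt (by push_cast; linarith)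
  have b2 : b < 5 := ilt (by push_cast; linarith)
  fin_cases o
  · rcases hR with ⟨h1, h2, h3, h4⟩ | ⟨h1, h2, h3, h4⟩ <;> interval_cases a <;> interval_cases b <;>
      cases t <;> obtain ⟨k1, k2, k3⟩ := hc <;> push_cast at k1 k2 k3 ha ha' hb hb' <;>
      first
      | (exfalso; linarith)
      | (simp only [cells]; decide)
  · rcases hR with ⟨h1, h2, h3, h4⟩ | ⟨h1, h2, h3, h4⟩ <;> interval_cases a <;> interval_cases b <;>
      cases t <;> obtain ⟨k1, k2, k3⟩ := hc <;> push_cast at k1 k2 k3 ha ha' hb hb' <;>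
      first
      | (exfalso; linarith)
      | (simp only [cells]; decide)
  · rcases hR with ⟨h1, h2, h3, h4⟩ | ⟨h1, h2, h3, h4⟩ <;> interval_cases a <;> interval_cases b <;>
      cases t <;> obtain ⟨k1, k2, k3⟩ := hc <;> push_cast at k1 k2 k3 ha ha' hb hb' <;>
      first
      | (exfalso; linarith)
      | (simp only [cells]; decide)

theorem disj : TT.Pairwise (fun A B => Disjoint (interior A) (interior B)) := by
  rintro A ⟨o, X, Y, hok, rfl⟩ B ⟨o', X', Y', hok', rfl⟩ hne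
  rw [Set.disjoint_iff_inter_eq_empty, ← Set.not_nonempty_iff_eq_empty]
  intro hne2
  apply hne
  obtain ⟨z, ⟨hzA, hzB⟩, g1, g2, g3⟩ := generic (isOpen_interior.inter isOpen_interior) hne2
  have hzA := interior_subset hzA
  have hzB := interior_subset hzB
  obtain ⟨t, i, j, hc⟩ := cell_of_gen z g1 g2 g3
  have hA : (t, i - X, j - Y) ∈ cells o := by
    apply cell_mem o t _ _ _ _ _ hzA
    cases t
    · obtain ⟨k1, k2, k3⟩ := hc
      refine ⟨?_, ?_, ?_⟩ <;> push_cast <;> linarith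
    · obtain ⟨k1, k2, k3⟩ := hc
      refine ⟨?_, ?_, ?_⟩ <;> push_cast <;> linarith
  have hB : (t, i - X', j - Y') ∈ cells o' := by
    apply cell_mem o' t _ _ _ _ _ hzB
    cases t
    · obtain ⟨k1, k2, k3⟩ := hc
      refine ⟨?_, ?_, ?_⟩ <;> push_cast <;> linarith
    · obtain ⟨k1, k2, k3⟩ := hc
      refine ⟨?_, ?_, ?_⟩ <;> push_cast <;> linarith
  have hr : ((i - 9 * j) % 32).toNat < 32 := by omega
  have := uniq_dec ⟨((i - 9 * j) % 32).toNat, hr⟩ o _ hA
    (by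
      rw [← hok]; apply ok_congr; simp only; omega) o' _ hB rfl
    (by
      rw [← hok']; apply ok_congr; simp only; omega)
  obtain ⟨ho, hcc⟩ := this
  rw [Prod.mk.injEq, Prod.mk.injEq] at hcc
  obtain ⟨-, hX, hY⟩ := hcc
  have hX : X = X' := by omega
  have hY : Y = Y' := by omega
  rw [ho, hX, hY]

/-! ### the base tile is a disc -/

noncomputable def F (z : E) : ℝ :=
  min (max (2 * |cy z|) (max (-2 * cx z) ((cx z + cy z) / 2)))
    (max (2 * |cx z|) (max (2 * cy z) (-(cx z + cy z) / 2)))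

theorem F_cont : Continuous F := by
  have h1 := cx_cont
  have h2 := cy_cont
  unfold F
  fun_prop

theorem F_hom (t : ℝ) (ht : 0 ≤ t) (z : E) : F (t • z) = t * F z := by
  unfold F
  rw [cx_smul, cy_smul, mul_min_of_nonneg _ _ ht, mul_max_of_nonneg _ _ ht,
    mul_max_of_nonneg _ _ ht, mul_max_of_nonneg _ _ ht, mul_max_of_nonneg _ _ ht,
    abs_mul, abs_mul, abs_of_nonneg ht]
  congr 1
  · congr 1
    · ring
    · congr 1 <;> ring
  · congr 1
    · ring
    · congr 1 <;> ring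

theorem F_pos (z : E) (hz : z ≠ 0) : 0 < F z := by
  have h : cx z ≠ 0 ∨ cy z ≠ 0 := by
    by_contra hcon
    push Not at hcon
    apply hz
    rw [← pt_c z, hcon.1, hcon.2]
    ext i
    fin_cases i <;> simp [pt]
  unfold F
  rw [lt_min_iff]
  constructor
  · by_cases h2 : cy z = 0
    · have h1 : cx z ≠ 0 := by
        rcases h with h | h
        · exact h
        · exact absurd h2 h
      rw [h2]
      rcases lt_or_gt_of_ne h1 with h1 | h1
      · exact lt_max_of_lt_right (lt_max_of_lt_left (by linarith))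
      · exact lt_max_of_lt_right (lt_max_of_lt_right (by linarith))
    · exact lt_max_of_lt_left (by have := abs_pos.mpr h2; linarith)
  · by_cases h2 : cx z = 0
    · have h1 : cy z ≠ 0 := by
        rcases h with h | h
        · exact absurd h2 h
        · exact h
      rw [h2]
      rcases lt_or_gt_of_ne h1 with h1 | h1
      · exact lt_max_of_lt_right (lt_max_of_lt_right (by linarith))
      · exact lt_max_of_lt_right (lt_max_of_lt_left (by linarith))
    · exact lt_max_of_lt_left (by have := abs_pos.mpr h2; linarith)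

noncomputable def ctr : E := pt (1 / 2) (5 / 2)

theorem mem_C_iff (z : E) : z ∈ C ↔ F (z - ctr) ≤ 1 := by
  unfold F ctr C InT
  simp only [cx_sub, cy_sub, cx_pt, cy_pt, Set.mem_ofPred_eq]
  rw [min_le_iff, max_le_iff, max_le_iff, max_le_iff, max_le_iff]
  constructor
  · rintro (⟨h1, h2, h3, h4⟩ | ⟨h1, h2, h3, h4⟩)
    · left
      refine ⟨?_, ?_, ?_⟩
      · have : |cy z - 5 / 2| ≤ 1 / 2 := abs_le.mpr ⟨by linarith, by linarith⟩
        linarith
      · linarith
      · linarith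
    · right
      refine ⟨?_, ?_, ?_⟩
      · have : |cx z - 1 / 2| ≤ 1 / 2 := abs_le.mpr ⟨by linarith, by linarith⟩
        linarith
      · linarith
      · linarith
  · rintro (⟨h1, h2, h3⟩ | ⟨h1, h2, h3⟩)
    · left
      have h5 : |cy z - 5 / 2| ≤ 1 / 2 := by linarith
      obtain ⟨h6, h7⟩ := abs_le.mp h5
      refine ⟨?_, ?_, ?_, ?_⟩ <;> linarith
    · right
      have h5 : |cx z - 1 / 2| ≤ 1 / 2 := by linarith
      obtain ⟨h6, h7⟩ := abs_le.mp h5
      refine ⟨?_, ?_, ?_, ?_⟩ <;> linarith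

theorem C_disc : Nonempty (C ≃ₜ Metric.closedBall (0 : E) 1) := by
  obtain ⟨e⟩ := star_homeo F_cont F_hom F_pos
  have e1 : C ≃ₜ {x : E | F x ≤ 1} := (Homeomorph.subRight ctr).subtype (by
    intro z
    exact mem_C_iff z)
  exact ⟨e1.trans e⟩

/-! ### the hole -/

/-- the tile `T` -/
def T0 : Set E := Tl 0 3 0

noncomputable def pY : E := pt (3 / 2) (9 / 2)

/-- the only tile containing `pY` is `Tl 0 1 2` -/
theorem only_Y (S : Set E) (hS : S ∈ TT) (h : pY ∈ S) : S = Tl 0 1 2 := by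
  obtain ⟨o, X, Y, hok, rfl⟩ := hS
  have h' : R o (3 / 2 - X) (9 / 2 - Y) := by
    have : R o (cx pY - X) (cy pY - Y) := h
    rwa [pY, cx_pt, cy_pt] at this
  have hbox : (0 : ℝ) ≤ 3 / 2 - X ∧ (3 / 2 - X : ℝ) ≤ 4 ∧ (0 : ℝ) ≤ 9 / 2 - Y ∧
      (9 / 2 - Y : ℝ) ≤ 5 := by
    fin_cases o
    · rcases h' with ⟨h1, h2, h3, h4⟩ | ⟨h1, h2, h3, h4⟩ <;>
        refine ⟨?_, ?_, ?_, ?_⟩ <;> linarith
    · rcases h' with ⟨h1, h2, h3, h4⟩ | ⟨h1, h2, h3, h4⟩ <;>
        refine ⟨?_, ?_, ?_, ?_⟩ <;> linarith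
    · rcases h' with ⟨h1, h2, h3, h4⟩ | ⟨h1, h2, h3, h4⟩ <;>
        refine ⟨?_, ?_, ?_, ?_⟩ <;> linarith
  obtain ⟨q1, q2, q3, q4⟩ := hbox
  have a1 : -3 < X := ilt (by push_cast; linarith)
  have a2 : X < 2 := ilt (by push_cast; linarith)
  have b1 : -1 < Y := ilt (by push_cast; linarith)
  have b2 : Y < 5 := ilt (by push_cast; linarith)
  fin_cases o <;> interval_cases X <;> interval_cases Y <;>
    first
    | rfl
    | (exfalso; revert hok; decide)
    | (exfalso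
       rcases h' with ⟨h1, h2, h3, h4⟩ | ⟨h1, h2, h3, h4⟩ <;> push_cast at h1 h2 h3 h4 <;>
        linarith)

theorem Y_disj : Tl 0 1 2 ∩ T0 = ∅ := by
  rw [← Set.not_nonempty_iff_eq_empty]
  rintro ⟨z, h1, h2⟩
  have h1' : InT (cx z - (1 : ℤ)) (cy z - (2 : ℤ)) := h1
  have h2' : InT (cx z - (3 : ℤ)) (cy z - (0 : ℤ)) := h2
  push_cast at h1' h2'
  rcases h1' with ⟨h1, h2, h3, h4⟩ | ⟨h1, h2, h3, h4⟩ <;>
  rcases h2' with ⟨k1, k2, k3, k4⟩ | ⟨k1, k2, k3, k4⟩ <;> linarith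

/-- the neighbourhood of `T0` -/
def NN : Set E := ⋃₀ {T' ∈ TT | (T' ∩ T0).Nonempty}

theorem pY_not_mem : pY ∉ NN := by
  rintro ⟨S, ⟨hS, hne⟩, hp⟩
  rw [only_Y S hS hp, Y_disj] at hne
  exact Set.not_nonempty_empty hne

theorem X_sub : Tl 0 2 1 ⊆ NN := by
  apply Set.subset_sUnion_of_mem
  refine ⟨⟨0, 2, 1, by decide, rfl⟩, pt 3 3, ?_, ?_⟩
  · show InT (cx (pt 3 3) - (2 : ℤ)) (cy (pt 3 3) - (1 : ℤ))
    rw [cx_pt, cy_pt]; left; norm_num
  · show InT (cx (pt 3 3) - (3 : ℤ)) (cy (pt 3 3) - (0 : ℤ))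
    rw [cx_pt, cy_pt]; left; norm_num

theorem A_sub : Tl 1 0 1 ⊆ NN := by
  apply Set.subset_sUnion_of_mem
  refine ⟨⟨1, 0, 1, by decide, rfl⟩, pt 3 1, ?_, ?_⟩
  · show InT (cx (pt 3 1) - (0 : ℤ)) (5 - (cx (pt 3 1) - (0 : ℤ)) - (cy (pt 3 1) - (1 : ℤ)))
    rw [cx_pt, cy_pt]; left; norm_num
  · show InT (cx (pt 3 1) - (3 : ℤ)) (cy (pt 3 1) - (0 : ℤ))
    rw [cx_pt, cy_pt]; right; norm_num

theorem B_sub : Tl 2 1 3 ⊆ NN := by
  apply Set.subset_sUnion_of_mem
  refine ⟨⟨2, 1, 3, by decide, rfl⟩, pt 5 3, ?_, ?_⟩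
  · show InT (5 - (cx (pt 5 3) - (1 : ℤ)) - (cy (pt 5 3) - (3 : ℤ))) (cy (pt 5 3) - (3 : ℤ))
    rw [cx_pt, cy_pt]; right; norm_num
  · show InT (cx (pt 5 3) - (3 : ℤ)) (cy (pt 5 3) - (0 : ℤ))
    rw [cx_pt, cy_pt]; left; norm_num

theorem bdry (z : E) (hz : F z = 1) : pY + z ∈ NN := by
  have key : (pY + z ∈ Tl 1 0 1) ∨ (pY + z ∈ Tl 2 1 3) ∨ (pY + z ∈ Tl 0 2 1) := by
    show InT (cx (pY + z) - (0 : ℤ)) (5 - (cx (pY + z) - (0 : ℤ)) - (cy (pY + z) - (1 : ℤ))) ∨
      InT (5 - (cx (pY + z) - (1 : ℤ)) - (cy (pY + z) - (3 : ℤ))) (cy (pY + z) - (3 : ℤ)) ∨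
      InT (cx (pY + z) - (2 : ℤ)) (cy (pY + z) - (1 : ℤ))
    rw [cx_add, cy_add, pY, cx_pt, cy_pt]
    push_cast
    unfold F at hz
    set u := cx z
    set v := cy z
    have hmin : (max (2 * |v|) (max (-2 * u) ((u + v) / 2)) = 1 ∧
        1 ≤ max (2 * |u|) (max (2 * v) (-(u + v) / 2))) ∨
        (max (2 * |u|) (max (2 * v) (-(u + v) / 2)) = 1 ∧
        1 ≤ max (2 * |v|) (max (-2 * u) ((u + v) / 2))) := by
      rcases min_choice (max (2 * |v|) (max (-2 * u) ((u + v) / 2)))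
        (max (2 * |u|) (max (2 * v) (-(u + v) / 2))) with h | h
      · left
        rw [h] at hz
        refine ⟨hz, ?_⟩
        rw [← hz]; rw [← h]; exact min_le_right _ _
      · right
        rw [h] at hz
        refine ⟨hz, ?_⟩
        rw [← hz]; rw [← h]; exact min_le_left _ _
    rcases hmin with ⟨h1, h2⟩ | ⟨h1, h2⟩
    · have hle := h1.le
      rw [max_le_iff, max_le_iff] at hle
      obtain ⟨l1, l2, l3⟩ := hle
      have l1' : |v| ≤ 1 / 2 := by linarith
      obtain ⟨l4, l5⟩ := abs_le.mp l1'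
      have hge : 1 ≤ 2 * |v| ∨ 1 ≤ -2 * u ∨ 1 ≤ (u + v) / 2 := by
        have := h1.ge
        rw [le_max_iff, le_max_iff] at this
        exact this
      have hge1 : 1 / 2 ≤ v ∨ v ≤ -1 / 2 ∨ 1 ≤ -2 * u ∨ 1 ≤ (u + v) / 2 := by
        rcases hge with h | h | h
        · have : 1 / 2 ≤ |v| := by linarith
          rcases le_abs.mp this with h | h
          · exact Or.inl h
          · exact Or.inr (Or.inl (by linarith))
        · exact Or.inr (Or.inr (Or.inl h))
        · exact Or.inr (Or.inr (Or.inr h))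
      have hge2 : 1 / 2 ≤ u ∨ u ≤ -1 / 2 ∨ 1 ≤ 2 * v ∨ 1 ≤ -(u + v) / 2 := by
        rw [le_max_iff, le_max_iff] at h2
        rcases h2 with h | h | h
        · have : 1 / 2 ≤ |u| := by linarith
          rcases le_abs.mp this with h | h
          · exact Or.inl h
          · exact Or.inr (Or.inl (by linarith))
        · exact Or.inr (Or.inr (Or.inl h))
        · exact Or.inr (Or.inr (Or.inr h))
      unfold InT
      rcases hge1 with g | g | g | g <;> rcases hge2 with k | k | k | k <;>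
      first
      | (exfalso; linarith)
      | (left; left; refine ⟨?_, ?_, ?_, ?_⟩ <;> linarith)
      | (left; right; refine ⟨?_, ?_, ?_, ?_⟩ <;> linarith)
      | (right; left; left; refine ⟨?_, ?_, ?_, ?_⟩ <;> linarith)
      | (right; left; right; refine ⟨?_, ?_, ?_, ?_⟩ <;> linarith)
      | (right; right; left; refine ⟨?_, ?_, ?_, ?_⟩ <;> linarith)
      | (right; right; right; refine ⟨?_, ?_, ?_, ?_⟩ <;> linarith)
    · have hle := h1.le
      rw [max_le_iff, max_le_iff] at hle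
      obtain ⟨l1, l2, l3⟩ := hle
      have l1' : |u| ≤ 1 / 2 := by linarith
      obtain ⟨l4, l5⟩ := abs_le.mp l1'
      have hge : 1 ≤ 2 * |u| ∨ 1 ≤ 2 * v ∨ 1 ≤ -(u + v) / 2 := by
        have := h1.ge
        rw [le_max_iff, le_max_iff] at this
        exact this
      have hge1 : 1 / 2 ≤ u ∨ u ≤ -1 / 2 ∨ 1 ≤ 2 * v ∨ 1 ≤ -(u + v) / 2 := by
        rcases hge with h | h | h
        · have : 1 / 2 ≤ |u| := by linarith
          rcases le_abs.mp this with h | h
          · exact Or.inl h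
          · exact Or.inr (Or.inl (by linarith))
        · exact Or.inr (Or.inr (Or.inl h))
        · exact Or.inr (Or.inr (Or.inr h))
      have hge2 : 1 / 2 ≤ v ∨ v ≤ -1 / 2 ∨ 1 ≤ -2 * u ∨ 1 ≤ (u + v) / 2 := by
        rw [le_max_iff, le_max_iff] at h2
        rcases h2 with h | h | h
        · have : 1 / 2 ≤ |v| := by linarith
          rcases le_abs.mp this with h | h
          · exact Or.inl h
          · exact Or.inr (Or.inl (by linarith))
        · exact Or.inr (Or.inr (Or.inl h))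
        · exact Or.inr (Or.inr (Or.inr h))
      unfold InT
      rcases hge1 with g | g | g | g <;> rcases hge2 with k | k | k | k <;>
      first
      | (exfalso; linarith)
      | (left; left; refine ⟨?_, ?_, ?_, ?_⟩ <;> linarith)
      | (left; right; refine ⟨?_, ?_, ?_, ?_⟩ <;> linarith)
      | (right; left; left; refine ⟨?_, ?_, ?_, ?_⟩ <;> linarith)
      | (right; left; right; refine ⟨?_, ?_, ?_, ?_⟩ <;> linarith)
      | (right; right; left; refine ⟨?_, ?_, ?_, ?_⟩ <;> linarith)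
      | (right; right; right; refine ⟨?_, ?_, ?_, ?_⟩ <;> linarith)
  rcases key with h | h | h
  · exact A_sub h
  · exact B_sub h
  · exact X_sub h

theorem NN_not_sc : ¬ SimplyConnectedSpace NN :=
  not_sc pY_not_mem F_cont F_hom F_pos bdry

end Pool.Agent.Y373.Chev
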