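import Pool.Agent.Y373.IdioDefs

set_option autoImplicit false

namespace Pool.Agent.Y373.Idio

/-! ### Squares -/

@[simp] theorem pt_zero (u v : ℝ) : pt u v 0 = u := by simp [pt]
@[simp] theorem pt_one (u v : ℝ) : pt u v 1 = v := by simp [pt]

theorem ext2 {z w : Plane} (h0 : z 0 = w 0) (h1 : z 1 = w 1) : z = w := by
  ext i
  fin_cases i
  · exact h0
  · exact h1

theorem dist_sq (z w : Plane) : dist z w ^ 2 = (z 0 - w 0) ^ 2 + (z 1 - w 1) ^ 2 := by
  rw [EuclideanSpace.dist_eq, Real.sq_sqrt (by positivity)]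
  simp [Real.dist_eq]

theorem mem_sq_self (c : Plane) : c ∈ sq c := by
  simp [sq]

theorem isClosed_sq (c : Plane) : IsClosed (sq c) := by
  have h0 : Continuous fun z : Plane => |z 0 - c 0| := by fun_prop
  have h1 : Continuous fun z : Plane => |z 1 - c 1| := by fun_prop
  exact (isClosed_le h0 continuous_const).inter (isClosed_le h1 continuous_const)

theorem convex_sq (c : Plane) : Convex ℝ (sq c) := by
  intro z hz w hw a b ha hb hab
  obtain ⟨hz0, hz1⟩ := hz
  obtain ⟨hw0, hw1⟩ := hw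
  rw [abs_le] at hz0 hz1 hw0 hw1
  have e0 : (a • z + b • w) 0 = a * z 0 + b * w 0 := by simp
  have e1 : (a • z + b • w) 1 = a * z 1 + b * w 1 := by simp
  have hb' : b = 1 - a := by linarith
  constructor
  · rw [e0, abs_le]; subst hb'
    constructor <;> nlinarith
  · rw [e1, abs_le]; subst hb'
    constructor <;> nlinarith

theorem isPreconnected_sq (c : Plane) : IsPreconnected (sq c) := (convex_sq c).isPreconnected

/-- `r = √2/2` as the circumradius. -/
theorem sq_subset_ball (c z : Plane) (hz : z ∈ sq c) : dist z c ^ 2 ≤ 1 / 2 := by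
  obtain ⟨h0, h1⟩ := hz
  rw [dist_sq]
  rw [abs_le] at h0 h1
  nlinarith

theorem center_unique (c z : Plane) (h : ∀ w ∈ sq c, dist w z ^ 2 ≤ 1 / 2) : z = c := by
  have h1 := h (pt (c 0 + 1 / 2) (c 1 + 1 / 2)) (by
    constructor <;> simp)
  have h2 := h (pt (c 0 - 1 / 2) (c 1 - 1 / 2)) (by
    constructor <;> simp)
  rw [dist_sq] at h1 h2
  simp only [pt_zero, pt_one] at h1 h2
  have h3 : (z 0 - c 0) ^ 2 + (z 1 - c 1) ^ 2 ≤ 0 := by nlinarith
  have h4 : z 0 - c 0 = 0 := by nlinarith [sq_nonneg (z 0 - c 0), sq_nonneg (z 1 - c 1)]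
  have h5 : z 1 - c 1 = 0 := by nlinarith [sq_nonneg (z 0 - c 0), sq_nonneg (z 1 - c 1)]
  exact ext2 (by linarith) (by linarith)

/-- An isometry mapping a square into a square maps centre to centre. -/
theorem map_center {a b : Plane} (g : Plane ≃ᵢ Plane) (h : sq b ⊆ g '' sq a) : g a = b := by
  apply center_unique
  intro w hw
  obtain ⟨w', hw', rfl⟩ := h hw
  rw [g.dist_eq]
  exact sq_subset_ball a w' hw'

/-- two squares are disjoint when the centres are at least two apart in some coordinate -/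
theorem disjoint_sq {a b : Plane} (h : 1 < |a 0 - b 0| ∨ 1 < |a 1 - b 1|) :
    Disjoint (sq a) (sq b) := by
  rw [Set.disjoint_left]
  rintro z ⟨h0, h1⟩ ⟨h2, h3⟩
  rw [abs_le] at h0 h1 h2 h3
  rcases h with h | h <;> rw [lt_abs] at h <;> rcases h with h | h <;> linarith

theorem comp_left {a b : Plane} (h : Disjoint (sq a) (sq b)) {z : Plane} (hz : z ∈ sq a) :
    connectedComponentIn (sq a ∪ sq b) z = sq a := by
  apply Set.Subset.antisymm
  · have h1 : IsPreconnected (connectedComponentIn (sq a ∪ sq b) z) :=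
      isPreconnected_connectedComponentIn
    have h2 := connectedComponentIn_subset (sq a ∪ sq b) z
    have hz' : z ∈ connectedComponentIn (sq a ∪ sq b) z :=
      mem_connectedComponentIn (Or.inl hz)
    have h3 := isPreconnected_iff_subset_of_disjoint_closed.1 h1 (sq a) (sq b) (isClosed_sq a)
      (isClosed_sq b) h2 (by rw [h.inter_eq]; simp)
    rcases h3 with h3 | h3
    · exact h3
    · exact (Set.disjoint_left.1 h hz (h3 hz')).elim
  · exact (isPreconnected_sq a).subset_connectedComponentIn hz Set.subset_union_left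

theorem comp_right {a b : Plane} (h : Disjoint (sq a) (sq b)) {z : Plane} (hz : z ∈ sq b) :
    connectedComponentIn (sq a ∪ sq b) z = sq b := by
  rw [Set.union_comm]
  exact comp_left h.symm hz

theorem mem_interior_sq (c : Plane) : c ∈ interior (sq c) := by
  rw [mem_interior]
  refine ⟨{z | |z 0 - c 0| < 1 / 2} ∩ {z | |z 1 - c 1| < 1 / 2}, ?_, ?_, ?_⟩
  · rintro z ⟨h0, h1⟩
    exact ⟨le_of_lt h0, le_of_lt h1⟩
  · have h0 : Continuous fun z : Plane => |z 0 - c 0| := by fun_prop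
    have h1 : Continuous fun z : Plane => |z 1 - c 1| := by fun_prop
    exact (isOpen_lt h0 continuous_const).inter (isOpen_lt h1 continuous_const)
  · simp

/-! ### The construction -/

theorem image_add (v c : Plane) : (IsometryEquiv.addRight v) '' sq c = sq (c + v) := by
  ext z
  constructor
  · rintro ⟨w, ⟨h0, h1⟩, rfl⟩
    constructor
    · simpa using h0
    · simpa using h1
  · rintro ⟨h0, h1⟩
    refine ⟨z - v, ⟨?_, ?_⟩, by simp⟩
    · simpa [sub_sub, add_comm] using h0
    · simpa [sub_sub, add_comm] using h1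

theorem image_sub (v c : Plane) : (IsometryEquiv.subLeft v) '' sq c = sq (v - c) := by
  ext z
  constructor
  · rintro ⟨w, ⟨h0, h1⟩, rfl⟩
    constructor
    · have : (v - w) 0 - (v - c) 0 = -(w 0 - c 0) := by simp
      change |(v - w) 0 - (v - c) 0| ≤ 1 / 2
      rw [this, abs_neg]; exact h0
    · have : (v - w) 1 - (v - c) 1 = -(w 1 - c 1) := by simp
      change |(v - w) 1 - (v - c) 1| ≤ 1 / 2
      rw [this, abs_neg]; exact h1
  · rintro ⟨h0, h1⟩
    refine ⟨v - z, ⟨?_, ?_⟩, by simp⟩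
    · have : (v - z) 0 - c 0 = -(z 0 - (v - c) 0) := by simp; ring
      rw [this, abs_neg]; exact h0
    · have : (v - z) 1 - c 1 = -(z 1 - (v - c) 1) := by simp; ring
      rw [this, abs_neg]; exact h1

theorem interior_line (i : Fin 2) (r : ℝ) : interior {z : Plane | z i = r} = ∅ := by
  rw [Set.eq_empty_iff_forall_notMem]
  intro z hz
  rw [mem_interior_iff_mem_nhds, Metric.mem_nhds_iff] at hz
  obtain ⟨ε, hε, h⟩ := hz
  have hz0 : z i = r := h (Metric.mem_ball_self hε)
  have h1 : z + EuclideanSpace.single i (ε / 2) ∈ Metric.ball z ε := by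
    rw [Metric.mem_ball, dist_eq_norm]
    rw [add_sub_cancel_left, PiLp.norm_single, Real.norm_eq_abs]
    rw [abs_of_pos (by linarith)]
    linarith
  have h2 : (z + EuclideanSpace.single i (ε / 2)) i = r := h h1
  simp at h2
  linarith

theorem isClosed_line (i : Fin 2) (r : ℝ) : IsClosed {z : Plane | z i = r} := by
  have h0 : Continuous fun z : Plane => z i := by fun_prop
  exact isClosed_eq h0 continuous_const

/-- centres of the sheared square tiling -/
noncomputable def C (θ : ℝ) (k j : ℤ) : Plane := pt (k + θ * j) j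

theorem sq_inter_sub (θ : ℝ) {k j k' j' : ℤ} (h : (k, j) ≠ (k', j')) :
    ∃ (i : Fin 2) (r : ℝ), sq (C θ k j) ∩ sq (C θ k' j') ⊆ {z : Plane | z i = r} := by
  by_cases hj : j = j'
  · subst hj
    have hk : k ≠ k' := fun h' => h (by rw [h'])
    refine ⟨0, ((C θ k j) 0 + (C θ k' j) 0) / 2, ?_⟩
    rintro z ⟨⟨h0, _⟩, ⟨h2, _⟩⟩
    simp only [C, pt_zero] at h0 h2 ⊢
    rw [abs_le] at h0 h2
    change z 0 = _
    rcases lt_or_gt_of_ne hk with hlt | hlt
    · have : (k : ℝ) + 1 ≤ k' := by exact_mod_cast hlt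
      linarith
    · have : (k' : ℝ) + 1 ≤ k := by exact_mod_cast hlt
      linarith
  · refine ⟨1, ((C θ k j) 1 + (C θ k' j') 1) / 2, ?_⟩
    rintro z ⟨⟨_, h0⟩, ⟨_, h2⟩⟩
    simp only [C, pt_one] at h0 h2 ⊢
    rw [abs_le] at h0 h2
    change z 1 = _
    rcases lt_or_gt_of_ne hj with hlt | hlt
    · have : (j : ℝ) + 1 ≤ j' := by exact_mod_cast hlt
      linarith
    · have : (j' : ℝ) + 1 ≤ j := by exact_mod_cast hlt
      linarith

theorem interior_union_empty {A B : Set Plane} (hA : IsClosed A) (h1 : interior A = ∅)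
    (h2 : interior B = ∅) : interior (A ∪ B) = ∅ := by
  rw [interior_union_isClosed_of_interior_empty hA h2, h1]

/-- tiles of the construction -/
noncomputable def tl (θ : ℝ) (m y : ℤ) (p : ℤ × ℤ) : Set Plane :=
  sq (C θ (2 * p.1) p.2) ∪ sq (C θ (2 * p.1 + m) (p.2 + y))

theorem tl_interior (θ : ℝ) {m : ℤ} (hm : Odd m) (y : ℤ) {p p' : ℤ × ℤ} (h : p ≠ p') :
    interior (tl θ m y p ∩ tl θ m y p') = ∅ := by
  obtain ⟨i, j⟩ := p
  obtain ⟨i', j'⟩ := p'
  have n1 : ((2 * i, j) : ℤ × ℤ) ≠ (2 * i', j') := by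
    intro h'
    rw [Prod.mk.injEq] at h'
    exact h (by rw [Prod.mk.injEq]; exact ⟨by omega, h'.2⟩)
  have n2 : ((2 * i + m, j + y) : ℤ × ℤ) ≠ (2 * i' + m, j' + y) := by
    intro h'
    rw [Prod.mk.injEq] at h'
    exact h (by rw [Prod.mk.injEq]; exact ⟨by omega, by omega⟩)
  have n3 : ((2 * i, j) : ℤ × ℤ) ≠ (2 * i' + m, j' + y) := by
    intro h'
    rw [Prod.mk.injEq] at h'
    obtain ⟨k, hk⟩ := hm
    omega
  have n4 : ((2 * i + m, j + y) : ℤ × ℤ) ≠ (2 * i', j') := by
    intro h'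
    rw [Prod.mk.injEq] at h'
    obtain ⟨k, hk⟩ := hm
    omega
  obtain ⟨a1, r1, s1⟩ := sq_inter_sub θ n1
  obtain ⟨a2, r2, s2⟩ := sq_inter_sub θ n2
  obtain ⟨a3, r3, s3⟩ := sq_inter_sub θ n3
  obtain ⟨a4, r4, s4⟩ := sq_inter_sub θ n4
  have hsub : tl θ m y (i, j) ∩ tl θ m y (i', j') ⊆
      {z : Plane | z a1 = r1} ∪ ({z : Plane | z a2 = r2} ∪
        ({z : Plane | z a3 = r3} ∪ {z : Plane | z a4 = r4})) := by
    rintro z ⟨h1 | h1, h2 | h2⟩
    · exact Or.inl (s1 ⟨h1, h2⟩)
    · exact Or.inr (Or.inr (Or.inl (s3 ⟨h1, h2⟩)))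
    · exact Or.inr (Or.inr (Or.inr (s4 ⟨h1, h2⟩)))
    · exact Or.inr (Or.inl (s2 ⟨h1, h2⟩))
  have hemp := interior_union_empty (isClosed_line a1 r1) (interior_line a1 r1)
    (interior_union_empty (isClosed_line a2 r2) (interior_line a2 r2)
      (interior_union_empty (isClosed_line a3 r3) (interior_line a3 r3) (interior_line a4 r4)))
  exact Set.eq_empty_of_subset_empty (hemp ▸ interior_mono hsub)

theorem tl_add (θ : ℝ) (m y : ℤ) (p v : ℤ × ℤ) :
    (IsometryEquiv.addRight (C θ (2 * v.1) v.2)) '' tl θ m y p = tl θ m y (p + v) := by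
  rw [tl, Set.image_union, image_add, image_add, tl]
  congr 2
  · apply ext2 <;> simp [C] <;> ring
  · apply ext2 <;> simp [C] <;> ring

theorem tl_sub (θ : ℝ) (m y : ℤ) (p v : ℤ × ℤ) :
    (IsometryEquiv.subLeft (C θ (2 * v.1) v.2 + C θ (2 * v.1 + m) (v.2 + y))) '' tl θ m y p =
      tl θ m y (v + v - p) := by
  rw [tl, Set.image_union, image_sub, image_sub, tl, Set.union_comm]
  congr 2
  · apply ext2 <;> simp [C] <;> ring
  · apply ext2 <;> simp [C] <;> ring

theorem isSymm_of (θ : ℝ) (m y : ℤ) (g : Plane ≃ᵢ Plane) (e : ℤ × ℤ → ℤ × ℤ)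
    (he : Function.Surjective e) (h : ∀ p, g '' tl θ m y p = tl θ m y (e p)) :
    IsSymmetry (Set.range (tl θ m y)) g := by
  ext t
  constructor
  · rintro ⟨_, ⟨p, rfl⟩, rfl⟩
    exact ⟨e p, (h p).symm⟩
  · rintro ⟨p, rfl⟩
    obtain ⟨q, rfl⟩ := he p
    exact ⟨tl θ m y q, ⟨q, rfl⟩, h q⟩

theorem construction (x y : ℤ) (hxy : 2 ≤ max |x| |y|) (θ : ℝ) (m : ℤ) (hm : Odd m)
    (hx : (x : ℝ) = m + θ * y) :
    IsTiling (Set.range (tl θ m y)) ∧ Monohedral (Set.range (tl θ m y)) (T x y) ∧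
      Idiomeric (Set.range (tl θ m y)) := by
  have hdis : ∀ p : ℤ × ℤ, Disjoint (sq (C θ (2 * p.1) p.2))
      (sq (C θ (2 * p.1 + m) (p.2 + y))) := by
    intro p
    apply disjoint_sq
    have e0 : (C θ (2 * p.1) p.2) 0 - (C θ (2 * p.1 + m) (p.2 + y)) 0 = -x := by
      simp [C, hx]; ring
    have e1 : (C θ (2 * p.1) p.2) 1 - (C θ (2 * p.1 + m) (p.2 + y)) 1 = -y := by
      simp [C]
    rw [e0, e1, abs_neg, abs_neg]
    rcases le_max_iff.1 hxy with h | h
    · left
      have : (2 : ℝ) ≤ |(x : ℝ)| := by exact_mod_cast h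
      linarith
    · right
      have : (2 : ℝ) ≤ |(y : ℝ)| := by exact_mod_cast h
      linarith
  have htrans : ∀ v : ℤ × ℤ, IsSymmetry (Set.range (tl θ m y))
      (IsometryEquiv.addRight (C θ (2 * v.1) v.2)) := by
    intro v
    apply isSymm_of θ m y _ (fun p => p + v) (fun p => ⟨p - v, by simp⟩)
    intro p
    exact tl_add θ m y p v
  refine ⟨⟨Set.countable_range _, ?_, ?_, ?_⟩, ?_, ?_, ?_⟩
  · rintro _ ⟨p, rfl⟩
    exact (isClosed_sq _).union (isClosed_sq _)
  · rw [Set.eq_univ_iff_forall]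
    intro z
    set j := round (z 1) with hj
    set k := round (z 0 - θ * j) with hk
    have h1 : |z 1 - j| ≤ 1 / 2 := abs_sub_round _
    have h0 : |z 0 - θ * j - k| ≤ 1 / 2 := abs_sub_round _
    have hz : z ∈ sq (C θ k j) := by
      constructor
      · simp only [C, pt_zero]
        have : z 0 - (k + θ * j) = z 0 - θ * j - k := by ring
        rw [this]; exact h0
      · simpa [C] using h1
    rcases Int.even_or_odd k with ⟨i, hi⟩ | hodd
    · refine ⟨tl θ m y (i, j), ⟨(i, j), rfl⟩, Or.inl ?_⟩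
      have : 2 * i = k := by omega
      simp only [this]
      exact hz
    · obtain ⟨i, hi⟩ := hodd.sub_odd hm
      refine ⟨tl θ m y (i, j - y), ⟨(i, j - y), rfl⟩, Or.inr ?_⟩
      have h3 : 2 * i + m = k := by omega
      have h4 : j - y + y = j := by omega
      simp only [h3, h4]
      exact hz
  · rintro _ ⟨p, rfl⟩ _ ⟨p', rfl⟩ hne
    have hpp : p ≠ p' := fun h => hne (by rw [h])
    rw [Set.disjoint_iff_inter_eq_empty, ← interior_inter]
    exact tl_interior θ hm y hpp
  · rintro _ ⟨p, rfl⟩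
    refine ⟨IsometryEquiv.addRight (C θ (2 * p.1) p.2), ?_⟩
    rw [T, Set.image_union, image_add, image_add, tl]
    congr 2
    · apply ext2 <;> simp [C]
    · apply ext2
      · simp [C, hx]; ring
      · simp [C]; ring
  · rintro _ ⟨p, rfl⟩ _ ⟨p', rfl⟩
    refine ⟨IsometryEquiv.addRight (C θ (2 * (p' - p).1) (p' - p).2), htrans (p' - p), ?_⟩
    rw [tl_add]
    congr 1
    abel
  · rintro _ ⟨p, rfl⟩ z hz w hw
    -- the half-turn exchanging the two squares of the tile
    let g := IsometryEquiv.subLeft (C θ (2 * p.1) p.2 + C θ (2 * p.1 + m) (p.2 + y))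
    have hg : IsSymmetry (Set.range (tl θ m y)) g := by
      apply isSymm_of θ m y _ (fun q => p + p - q) (fun q => ⟨p + p - q, by simp⟩)
      intro q
      exact tl_sub θ m y q p
    have hgt : g '' tl θ m y p = tl θ m y p := by
      have := tl_sub θ m y p p
      rw [show p + p - p = p by abel] at this
      exact this
    have hg1 : g '' sq (C θ (2 * p.1) p.2) = sq (C θ (2 * p.1 + m) (p.2 + y)) := by
      rw [image_sub]; congr 1; abel
    have hg2 : g '' sq (C θ (2 * p.1 + m) (p.2 + y)) = sq (C θ (2 * p.1) p.2) := by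
      rw [image_sub]; congr 1; abel
    have hrefl : ∀ S : Set Plane, (IsometryEquiv.refl Plane) '' S = S := fun S => Set.image_id S
    have hid : IsSymmetry (Set.range (tl θ m y)) (IsometryEquiv.refl Plane) := by
      apply isSymm_of θ m y _ id Function.surjective_id
      intro q
      exact hrefl _
    rcases hz with hz | hz <;> rcases hw with hw | hw
    · refine ⟨IsometryEquiv.refl _, hid, hrefl _, ?_⟩
      rw [hrefl, tl, comp_left (hdis p) hz, comp_left (hdis p) hw]
    · refine ⟨g, hg, hgt, ?_⟩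
      rw [tl, comp_left (hdis p) hz, comp_right (hdis p) hw, hg1]
    · refine ⟨g, hg, hgt, ?_⟩
      rw [tl, comp_right (hdis p) hz, comp_left (hdis p) hw, hg2]
    · refine ⟨IsometryEquiv.refl _, hid, hrefl _, ?_⟩
      rw [hrefl, tl, comp_right (hdis p) hz, comp_right (hdis p) hw]

/-- exchange of the coordinates -/
theorem swap_image (x : ℤ) : ∃ s : Plane ≃ᵢ Plane, s '' T x 0 = T 0 x := by
  let f : Plane → Plane := fun z => pt (z 1) (z 0)
  have hff : ∀ z, f (f z) = z := fun z => ext2 (by simp [f]) (by simp [f])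
  have hiso : Isometry f := by
    apply Isometry.of_dist_eq
    intro z w
    have h1 : dist (f z) (f w) ^ 2 = dist z w ^ 2 := by
      rw [dist_sq, dist_sq]; simp only [f, pt_zero, pt_one]; ring
    exact (sq_eq_sq₀ dist_nonneg dist_nonneg).1 h1
  refine ⟨IsometryEquiv.mk' f f hff hiso, ?_⟩
  have hsq : ∀ a b : ℝ, f '' sq (pt a b) = sq (pt b a) := by
    intro a b
    ext z
    constructor
    · rintro ⟨w, ⟨h0, h1⟩, rfl⟩
      simp only [pt_zero, pt_one] at h0 h1
      constructor <;> simp only [f, pt_zero, pt_one] <;> assumption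
    · rintro ⟨h0, h1⟩
      refine ⟨f z, ?_, hff z⟩
      simp only [pt_zero, pt_one] at h0 h1
      constructor <;> simp only [f, pt_zero, pt_one] <;> assumption
  change f '' T x 0 = T 0 x
  rw [T, Set.image_union, hsq, hsq, T]

/-- Every `T(x,y)` admits an idiomeric tiling of the plane. -/
theorem allPairs (x y : ℤ) (hxy : 2 ≤ max |x| |y|) :
    ∃ F : Set (Set Plane), IsTiling F ∧ Monohedral F (T x y) ∧ Idiomeric F := by
  by_cases hy : y = 0
  · subst hy
    have hx : x ≠ 0 := by rintro rfl; simp at hxy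
    have hxr : (x : ℝ) ≠ 0 := by exact_mod_cast hx
    obtain ⟨h1, h2, h3⟩ := construction 0 x (by rwa [max_comm] at hxy) (-1 / x) 1 odd_one
      (by push_cast; field_simp; ring)
    refine ⟨_, h1, ?_, h3⟩
    intro t ht
    obtain ⟨g, hg⟩ := h2 t ht
    obtain ⟨s, hs⟩ := swap_image x
    refine ⟨s.trans g, ?_⟩
    rw [← hg, ← hs, ← Set.image_comp]
    rfl
  · have hyr : (y : ℝ) ≠ 0 := by exact_mod_cast hy
    obtain ⟨h1, h2, h3⟩ := construction x y hxy ((x - 1) / y) 1 odd_one
      (by push_cast; field_simp; ring)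
    exact ⟨_, h1, h2, h3⟩

end Pool.Agent.Y373.Idio
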