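import Mathlib

set_option autoImplicit false

namespace Pool.Agent.Y373.Idio

/-- The Euclidean plane. -/
abbrev Plane : Type := EuclideanSpace ℝ (Fin 2)

/-- The point with coordinates `(u, v)`. -/
noncomputable def pt (u v : ℝ) : Plane := !₂[u, v]

/-- The closed unit square with centre `c` and sides parallel to the axes. -/
def sq (c : Plane) : Set Plane := {z | |z 0 - c 0| ≤ 1 / 2 ∧ |z 1 - c 1| ≤ 1 / 2}

/-- The prototile `T(x,y)`: the union of the unit squares centred at `(0,0)` and `(x,y)`. -/
def T (x y : ℤ) : Set Plane := sq (pt 0 0) ∪ sq (pt x y)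

/-- A countable family of closed sets covering the plane with pairwise disjoint interiors. -/
structure IsTiling (F : Set (Set Plane)) : Prop where
  countable : F.Countable
  closed : ∀ t ∈ F, IsClosed t
  cover : ⋃₀ F = Set.univ
  disjoint : ∀ t ∈ F, ∀ t' ∈ F, t ≠ t' → Disjoint (interior t) (interior t')

/-- Every tile is congruent to `P` (reflections allowed). -/
def Monohedral (F : Set (Set Plane)) (P : Set Plane) : Prop :=
  ∀ t ∈ F, ∃ g : Plane ≃ᵢ Plane, g '' P = t

/-- The isometry `g` maps the tiling onto itself. -/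
def IsSymmetry (F : Set (Set Plane)) (g : Plane ≃ᵢ Plane) : Prop :=
  (fun t => g '' t) '' F = F

/-- The symmetry group acts transitively on the tiles. -/
def Isohedral (F : Set (Set Plane)) : Prop :=
  ∀ t ∈ F, ∀ t' ∈ F, ∃ g, IsSymmetry F g ∧ g '' t = t'

/-- Isohedral, and the symmetries mapping a tile onto itself act transitively on its connected
components. -/
def Idiomeric (F : Set (Set Plane)) : Prop :=
  Isohedral F ∧ ∀ t ∈ F, ∀ z ∈ t, ∀ w ∈ t, ∃ g, IsSymmetry F g ∧ g '' t = t ∧
    g '' connectedComponentIn t z = connectedComponentIn t w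

end Pool.Agent.Y373.Idio
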