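import Mathlib

/-! Star-shaped bodies given by a gauge: homeomorphic to the closed ball; and a set missing the
centre but containing the boundary of such a body in the plane is not simply connected. -/

set_option autoImplicit false

namespace Pool.Agent.Y373.Star

section ball
variable {V : Type*} [NormedAddCommGroup V] [NormedSpace ℝ V] [FiniteDimensional ℝ V]
  [Nontrivial V]

omit [FiniteDimensional ℝ V] [Nontrivial V] in
theorem gauge_zero {f : V → ℝ} (hhom : ∀ t : ℝ, 0 ≤ t → ∀ x : V, f (t • x) = t * f x) :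
    f 0 = 0 := by
  have := hhom 0 le_rfl 0
  simpa using this

theorem star_homeo {f : V → ℝ} (hf : Continuous f)
    (hhom : ∀ t : ℝ, 0 ≤ t → ∀ x : V, f (t • x) = t * f x)
    (hpos : ∀ x : V, x ≠ 0 → 0 < f x) :
    Nonempty ({x : V | f x ≤ 1} ≃ₜ Metric.closedBall (0 : V) 1) := by
  have f0 : f 0 = 0 := gauge_zero hhom
  have hnn : ∀ x, 0 ≤ f x := by
    intro x
    by_cases hx : x = 0
    · rw [hx, f0]
    · exact (hpos x hx).le
  have hprop : ProperSpace V := FiniteDimensional.proper ℝ V
  obtain ⟨x0, hx0, hmin⟩ := (isCompact_sphere (0 : V) 1).exists_isMinOn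
    (NormedSpace.sphere_nonempty.mpr zero_le_one) hf.continuousOn
  have hx0ne : x0 ≠ 0 := by
    intro h
    rw [h] at hx0
    simp at hx0
  set m : ℝ := f x0 with hm
  have hmpos : 0 < m := hpos x0 hx0ne
  have hlow : ∀ x : V, m * ‖x‖ ≤ f x := by
    intro x
    by_cases hx : x = 0
    · rw [hx, f0]; simp
    · have hnx : 0 < ‖x‖ := norm_pos_iff.mpr hx
      have h1 : ‖x‖ • (‖x‖⁻¹ • x) = x := by
        rw [smul_smul, mul_inv_cancel₀ hnx.ne', one_smul]
      have h2 := hhom ‖x‖ hnx.le (‖x‖⁻¹ • x)
      rw [h1] at h2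
      rw [h2, mul_comm]
      apply mul_le_mul_of_nonneg_left _ hnx.le
      apply hmin
      simp only [mem_sphere_iff_norm, sub_zero, norm_smul, norm_inv, norm_norm]
      exact inv_mul_cancel₀ hnx.ne'
  have hnorm1 : ∀ x : V, ‖(f x / ‖x‖) • x‖ = f x := by
    intro x
    by_cases hx : x = 0
    · rw [hx, f0]; simp
    · have hnx : 0 < ‖x‖ := norm_pos_iff.mpr hx
      rw [norm_smul, Real.norm_eq_abs,
        abs_of_nonneg (div_nonneg (hnn x) hnx.le), div_mul_cancel₀ _ hnx.ne']
  have hnorm2 : ∀ y : V, ‖(‖y‖ / f y) • y‖ ≤ ‖y‖ / m := by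
    intro y
    by_cases hy : y = 0
    · rw [hy]; simp
    · have hny : 0 < ‖y‖ := norm_pos_iff.mpr hy
      have hfy : 0 < f y := hpos y hy
      rw [norm_smul, Real.norm_eq_abs, abs_of_nonneg (div_nonneg hny.le hfy.le)]
      rw [le_div_iff₀ hmpos, div_mul_eq_mul_div, div_mul_eq_mul_div, div_le_iff₀ hfy]
      have := hlow y
      nlinarith
  let e : V ≃ₜ V :=
    { toFun := fun x => (f x / ‖x‖) • x
      invFun := fun y => (‖y‖ / f y) • y
      left_inv := by
        intro x
        by_cases hx : x = 0
        · simp [hx]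
        · have hnx : 0 < ‖x‖ := norm_pos_iff.mpr hx
          have hfx : 0 < f x := hpos x hx
          have h1 : f ((f x / ‖x‖) • x) = f x / ‖x‖ * f x :=
            hhom _ (div_nonneg hfx.le hnx.le) x
          show (‖(f x / ‖x‖) • x‖ / f ((f x / ‖x‖) • x)) • ((f x / ‖x‖) • x) = x
          rw [hnorm1, h1, smul_smul]
          have : f x / (f x / ‖x‖ * f x) * (f x / ‖x‖) = 1 := by field_simp
          rw [this]; simp
      right_inv := by
        intro y
        by_cases hy : y = 0
        · simp [hy]
        · have hny : 0 < ‖y‖ := norm_pos_iff.mpr hy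
          have hfy : 0 < f y := hpos y hy
          have h1 : f ((‖y‖ / f y) • y) = ‖y‖ / f y * f y :=
            hhom _ (div_nonneg hny.le hfy.le) y
          have h2 : ‖(‖y‖ / f y) • y‖ = ‖y‖ / f y * ‖y‖ := by
            rw [norm_smul, Real.norm_eq_abs,
              abs_of_nonneg (div_nonneg hny.le hfy.le)]
          show (f ((‖y‖ / f y) • y) / ‖(‖y‖ / f y) • y‖) • ((‖y‖ / f y) • y) = y
          rw [h2, h1, smul_smul]
          have : ‖y‖ / f y * f y / (‖y‖ / f y * ‖y‖) * (‖y‖ / f y) = 1 := by field_simp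
          rw [this]; simp
      continuous_toFun := by
        rw [continuous_iff_continuousAt]
        intro x
        by_cases hx : x = 0
        · rw [hx]
          show Filter.Tendsto _ _ _
          simp only [smul_zero]
          rw [tendsto_zero_iff_norm_tendsto_zero]
          simp only [hnorm1]
          have := hf.tendsto 0
          rwa [f0] at this
        · have h1 : ContinuousAt (fun x : V => (f x / ‖x‖ : ℝ)) x :=
            hf.continuousAt.div continuous_norm.continuousAt (norm_ne_zero_iff.mpr hx)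
          exact h1.smul continuousAt_id
      continuous_invFun := by
        rw [continuous_iff_continuousAt]
        intro y
        by_cases hy : y = 0
        · rw [hy]
          show Filter.Tendsto _ _ _
          simp only [smul_zero]
          rw [tendsto_zero_iff_norm_tendsto_zero]
          apply squeeze_zero (fun y => norm_nonneg _) hnorm2
          have : Filter.Tendsto (fun y : V => ‖y‖ / m) (nhds 0) (nhds (‖(0 : V)‖ / m)) :=
            (continuous_norm.div_const m).tendsto 0
          simpa using this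
        · have h1 : ContinuousAt (fun y : V => (‖y‖ / f y : ℝ)) y :=
            continuous_norm.continuousAt.div hf.continuousAt (hpos y hy).ne'
          exact h1.smul continuousAt_id }
  refine ⟨e.subtype (p := fun x => x ∈ {x : V | f x ≤ 1})
    (q := fun y => y ∈ Metric.closedBall (0 : V) 1) ?_⟩
  intro x
  rw [mem_closedBall_zero_iff]
  show f x ≤ 1 ↔ ‖(f x / ‖x‖) • x‖ ≤ 1
  rw [hnorm1]

end ball

/-! ### the loop -/

abbrev E := EuclideanSpace ℝ (Fin 2)

/-- identification with the complex numbers -/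
noncomputable def toC (z : E) : ℂ := ⟨z 0, z 1⟩

theorem toC_cont : Continuous toC := by
  have h : toC = fun z : E => ((z 0 : ℝ) : ℂ) + ((z 1 : ℝ) : ℂ) * Complex.I := by
    funext z
    apply Complex.ext <;> simp [toC]
  rw [h]
  fun_prop

theorem toC_ne {z : E} (h : z ≠ 0) : toC z ≠ 0 := by
  intro hz
  apply h
  have h0 : (toC z).re = 0 := by rw [hz]; rfl
  have h1 : (toC z).im = 0 := by rw [hz]; rfl
  ext i
  fin_cases i
  · exact h0
  · exact h1

/-- unit direction -/
noncomputable def dir (θ : ℝ) : E := !₂[Real.cos θ, Real.sin θ]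

theorem dir_cont : Continuous dir := by
  unfold dir
  fun_prop

theorem toC_smul_dir (r θ : ℝ) : toC (r • dir θ) = (r : ℂ) * Complex.exp (θ * Complex.I) := by
  rw [Complex.exp_mul_I]
  apply Complex.ext
  · simp [toC, dir, Complex.cos_ofReal_re, Complex.sin_ofReal_im, Complex.sin_ofReal_re,
      Complex.cos_ofReal_im]
  · simp [toC, dir, Complex.cos_ofReal_re, Complex.sin_ofReal_im, Complex.sin_ofReal_re,
      Complex.cos_ofReal_im]

theorem dir_ne (θ : ℝ) : dir θ ≠ 0 := by
  intro h
  have h1 := toC_smul_dir 1 θ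
  rw [h] at h1
  simp only [smul_zero, Complex.ofReal_one, one_mul] at h1
  have h2 : toC (0 : E) = 0 := by
    apply Complex.ext <;> simp [toC]
  rw [h2] at h1
  exact (Complex.exp_ne_zero _) h1.symm

theorem dir_period (θ : ℝ) : dir (θ + 2 * Real.pi) = dir θ := by
  simp [dir]

theorem not_sc {N : Set E} {p : E} (hp : p ∉ N) {f : E → ℝ} (hf : Continuous f)
    (hhom : ∀ t : ℝ, 0 ≤ t → ∀ x : E, f (t • x) = t * f x)
    (hpos : ∀ x : E, x ≠ 0 → 0 < f x)
    (hN : ∀ z : E, f z = 1 → p + z ∈ N) : ¬ SimplyConnectedSpace N := by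
  intro hsc
  -- the loop
  have hfd : ∀ θ, 0 < f (dir θ) := fun θ => hpos _ (dir_ne θ)
  have hmem : ∀ θ, p + (f (dir θ))⁻¹ • dir θ ∈ N := by
    intro θ
    apply hN
    rw [hhom _ (inv_nonneg.mpr (hfd θ).le)]
    exact inv_mul_cancel₀ (hfd θ).ne'
  let s : ℝ → N := fun θ => ⟨p + (f (dir θ))⁻¹ • dir θ, hmem θ⟩
  have hs : Continuous s := by
    apply Continuous.subtype_mk
    have h1 : Continuous fun θ => (f (dir θ))⁻¹ :=
      (hf.comp dir_cont).inv₀ (fun θ => (hfd θ).ne')
    exact continuous_const.add (h1.smul dir_cont)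
  have hper : s (2 * Real.pi) = s 0 := by
    apply Subtype.ext
    show p + (f (dir (2 * Real.pi)))⁻¹ • dir (2 * Real.pi) = p + (f (dir 0))⁻¹ • dir 0
    have := dir_period 0
    rw [zero_add] at this
    rw [this]
  let γ : Path (s 0) (s 0) :=
    { toFun := fun t => s (2 * Real.pi * (t : ℝ))
      continuous_toFun := by fun_prop
      source' := by simp
      target' := by simpa using hper }
  -- the retraction
  have hne : ∀ z : N, toC ((z : E) - p) ≠ 0 := by
    intro z
    apply toC_ne
    intro h
    apply hp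
    have : (z : E) = p := sub_eq_zero.mp h
    rw [← this]; exact z.2
  let r : N → Circle := fun z =>
    ⟨toC ((z : E) - p) / (‖toC ((z : E) - p)‖ : ℂ), by
      rw [Submonoid.unitSphere.eq_1]
      simp only [Submonoid.mem_mk, Subsemigroup.mem_mk, mem_sphere_iff_norm, sub_zero, norm_div,
        Complex.norm_real, norm_norm]
      exact div_self (norm_ne_zero_iff.mpr (hne z))⟩
  have hr : Continuous r := by
    apply Continuous.subtype_mk
    have h1 : Continuous fun z : N => toC ((z : E) - p) :=
      toC_cont.comp (continuous_subtype_val.sub continuous_const)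
    apply h1.div
    · exact Complex.continuous_ofReal.comp (continuous_norm.comp h1)
    · intro z
      exact Complex.ofReal_ne_zero.mpr (norm_ne_zero_iff.mpr (hne z))
  have hrs : ∀ θ, r (s θ) = Circle.exp θ := by
    intro θ
    apply Subtype.ext
    show toC ((p + (f (dir θ))⁻¹ • dir θ) - p) / (‖toC ((p + (f (dir θ))⁻¹ • dir θ) - p)‖ : ℂ)
      = _
    rw [add_sub_cancel_left, toC_smul_dir, norm_mul, Complex.norm_exp_ofReal_mul_I, mul_one,
      Complex.norm_real, Real.norm_eq_abs, abs_of_pos (inv_pos.mpr (hfd θ)),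
      mul_div_cancel_left₀]
    · rfl
    · exact Complex.ofReal_ne_zero.mpr (inv_pos.mpr (hfd θ)).ne'
  -- homotopic
  have hhomot : Path.Homotopic γ (Path.refl (s 0)) := SimplyConnectedSpace.paths_homotopic _ _
  have h2 := hhomot.map ⟨r, hr⟩
  have h3 : (⟨fun t : unitInterval => Circle.exp (2 * Real.pi * (t : ℝ)), by fun_prop⟩ :
      C(unitInterval, Circle)).HomotopicRel (ContinuousMap.const _ (Circle.exp 0)) {0, 1} := by
    obtain ⟨H⟩ := h2
    have e1 : (⟨fun t : unitInterval => Circle.exp (2 * Real.pi * (t : ℝ)), by fun_prop⟩ :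
      C(unitInterval, Circle)) = (γ.map hr).toContinuousMap := by
      ext t
      show ((Circle.exp (2 * Real.pi * (t : ℝ)) : Circle) : ℂ) = ((r (s (2 * Real.pi * (t : ℝ))) : Circle) : ℂ)
      rw [hrs]
    have e2 : (ContinuousMap.const _ (Circle.exp 0) : C(unitInterval, Circle)) =
        ((Path.refl (s 0)).map hr).toContinuousMap := by
      ext t
      show ((Circle.exp 0 : Circle) : ℂ) = ((r (s 0) : Circle) : ℂ)
      rw [hrs]
    rw [e1, e2]
    exact ⟨H⟩
  have hcov := Circle.isCoveringMap_exp
  have h4 := hcov.liftPath_apply_one_eq_of_homotopicRel h3 0 (by simp) (by simp)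
  rw [hcov.liftPath_const rfl] at h4
  have h5 : (⟨fun t : unitInterval => 2 * Real.pi * (t : ℝ), by fun_prop⟩ : C(unitInterval, ℝ)) =
      hcov.liftPath (⟨fun t : unitInterval => Circle.exp (2 * Real.pi * (t : ℝ)), by fun_prop⟩ :
      C(unitInterval, Circle)) 0 (by simp) := by
    rw [hcov.eq_liftPath_iff']
    constructor
    · rfl
    · simp
  rw [← h5] at h4
  simp at h4

end Pool.Agent.Y373.Star
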